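import Mathlib

/-!
# A mixed cubic sum of Shapiro Catalan triangle numbers

For all `n, m ≥ 1`, `r = min n m`, `s = max n m`,
`∑_{k=1}^r B_{n,k}^2 B_{m,k} = 1/2 C(2n,n)^2 C(2m,m) [1 - (n+2m)/r C(n+m,n)⁻¹ C(n+r,n)⁻¹
  ∑_{j<r} C(s+j,s) C(n+j,n-1)]`.

Proof.  Let `a_n(k) = C(2n,n+k)/C(2n,n)`, so `(n+k+1) a_n(k+1) = (n-k) a_n(k)` and
`c² (a_c(k) - a_{c-1}(k)) = k² a_c(k)`.  Telescoping of `(a+k)(b+k)(c+k) a_a(k) a_b(k) a_c(k)` gives a
linear relation between `V(a,b,c) = ∑ k a_a a_b a_c` and `∑ k³ a_a a_b a_c`, and the second identity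
gives `(c+a)(c+b) V(a,b,c) = c² V(a,b,c-1) + abc/2`.  Hence
`C(a+c,a) C(b+c,b) V(a,b,c) = (b/2) ∑_{j<c} C(a+j,a-1) C(b+j,b)`.  The case `m ≤ n` is
`(a,b,c) = (n,n,m)`, the case `n ≤ m` is `(a,b,c) = (n,m,n)`.
-/

namespace Pool.Agent.Results.MP_651eca_nt.MixedCubicSum

open Finset

/-- The entries `B_{n,k} = (k/n) C(2n, n-k)` (`1 ≤ k ≤ n`) of Shapiro's Catalan triangle. -/
def B (n k : ℕ) : ℚ := (k : ℚ) / n * (Nat.choose (2 * n) (n - k) : ℚ)

/-- `a_n(k) = C(2n, n+k)/C(2n, n)` -/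
def A (n k : ℕ) : ℚ := (Nat.choose (2 * n) (n + k) : ℚ) / Nat.choose (2 * n) n

lemma cb_ne (n : ℕ) : (Nat.choose (2 * n) n : ℚ) ≠ 0 := by
  have : 0 < Nat.choose (2 * n) n := Nat.choose_pos (by omega)
  exact_mod_cast this.ne'

lemma A_zero (n : ℕ) : A n 0 = 1 := by
  unfold A
  rw [add_zero, div_self (cb_ne n)]

lemma A_eq_zero (n k : ℕ) (h : n < k) : A n k = 0 := by
  unfold A
  rw [Nat.choose_eq_zero_of_lt (by omega)]
  simp

lemma A_succ (n k : ℕ) : ((n : ℚ) + k + 1) * A n (k + 1) = ((n : ℚ) - k) * A n k := by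
  unfold A
  rw [← mul_div_assoc, ← mul_div_assoc]
  congr 1
  have h := Nat.choose_succ_right_eq (2 * n) (n + k)
  rcases le_or_gt k n with hk | hk
  · have h2 : 2 * n - (n + k) = n - k := by omega
    rw [h2] at h
    have h3 : ((Nat.choose (2 * n) (n + k + 1) : ℚ)) * ((n : ℚ) + k + 1) =
        (Nat.choose (2 * n) (n + k) : ℚ) * ((n : ℚ) - k) := by
      have := congrArg (Nat.cast : ℕ → ℚ) h
      push_cast [Nat.cast_sub hk] at this
      exact this
    rw [show n + (k + 1) = n + k + 1 by ring]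
    linarith
  · rw [Nat.choose_eq_zero_of_lt (by omega : 2 * n < n + (k + 1)),
      Nat.choose_eq_zero_of_lt (by omega : 2 * n < n + k)]
    simp

lemma A_down (c k : ℕ) : (((c : ℚ) + 1) ^ 2 - (k : ℚ) ^ 2) * A (c + 1) k =
    ((c : ℚ) + 1) ^ 2 * A c k := by
  have key : ∀ k : ℕ, (((c : ℚ) + 1) ^ 2 - (k : ℚ) ^ 2) *
      (Nat.choose (2 * (c + 1)) (c + 1 + k) : ℚ) =
      (2 * (c : ℚ) + 2) * (2 * c + 1) * (Nat.choose (2 * c) (c + k) : ℚ) := by
    intro k
    rcases le_or_gt k c with hk | hk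
    · have h1 := Nat.add_one_mul_choose_eq (2 * c + 1) (c + k)
      have h2 := Nat.choose_mul_succ_eq (2 * c) (c + k)
      have e1 : 2 * c + 1 + 1 = 2 * (c + 1) := by omega
      have e2 : c + k + 1 = c + 1 + k := by omega
      have e3 : 2 * c + 1 - (c + k) = c + 1 - k := by omega
      rw [e1, e2] at h1
      rw [e3] at h2
      have g1 := congrArg (Nat.cast : ℕ → ℚ) h1
      have g2 := congrArg (Nat.cast : ℕ → ℚ) h2
      push_cast [Nat.cast_sub (by omega : k ≤ c + 1)] at g1 g2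
      have : (((c : ℚ) + 1) ^ 2 - (k : ℚ) ^ 2) *
          (Nat.choose (2 * (c + 1)) (c + 1 + k) : ℚ) =
          ((c : ℚ) + 1 - k) * ((Nat.choose (2 * (c + 1)) (c + 1 + k) : ℚ) * (c + 1 + k)) := by ring
      rw [this, ← g1]
      have h3 : ((c : ℚ) + 1 - k) * (2 * ((c : ℚ) + 1) * (Nat.choose (2 * c + 1) (c + k) : ℚ)) =
          2 * ((c : ℚ) + 1) * ((Nat.choose (2 * c + 1) (c + k) : ℚ) * ((c : ℚ) + 1 - k)) := by ring
      rw [h3, ← g2]
      ring
    · rw [Nat.choose_eq_zero_of_lt (by omega : 2 * c < c + k)]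
      rcases eq_or_lt_of_le (Nat.succ_le_of_lt hk) with h | h
      · rw [← h]
        push_cast
        ring
      · rw [Nat.choose_eq_zero_of_lt (by omega : 2 * (c + 1) < c + 1 + k)]
        simp
  have h0 := key 0
  have hk := key k
  rw [add_zero, add_zero] at h0
  unfold A
  have n1 := cb_ne (c + 1)
  have n2 := cb_ne c
  rw [← mul_div_assoc, ← mul_div_assoc, div_eq_div_iff n1 n2]
  push_cast at h0
  have hc : ((c : ℚ) + 1) ^ 2 ≠ 0 := by positivity
  have h0' : (2 * (c : ℚ) + 2) * (2 * c + 1) * (Nat.choose (2 * c) c : ℚ) =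
      ((c : ℚ) + 1) ^ 2 * (Nat.choose (2 * (c + 1)) (c + 1) : ℚ) := by
    rw [← h0]; ring
  rw [hk]
  linear_combination (Nat.choose (2 * c) (c + k) : ℚ) * h0'

/-- `V(a,b,c) = ∑_{k ≤ c} k a_a(k) a_b(k) a_c(k)` -/
def V (a b c : ℕ) : ℚ := ∑ k ∈ range (c + 1), (k : ℚ) * (A a k * A b k * A c k)

/-- `T(a,b,c) = ∑_{k ≤ c} k³ a_a(k) a_b(k) a_c(k)` -/
def T (a b c : ℕ) : ℚ := ∑ k ∈ range (c + 1), (k : ℚ) ^ 3 * (A a k * A b k * A c k)

lemma rel1 (a b c : ℕ) : 2 * T a b c + 2 * ((a : ℚ) * b + b * c + c * a) * V a b c =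
    (a : ℚ) * b * c := by
  have hG : ∀ N : ℕ, ∑ k ∈ range N, (2 * ((k : ℚ) ^ 3 * (A a k * A b k * A c k)) +
      2 * ((a : ℚ) * b + b * c + c * a) * ((k : ℚ) * (A a k * A b k * A c k))) =
      (a : ℚ) * b * c - ((a : ℚ) + N) * (b + N) * (c + N) * (A a N * A b N * A c N) := by
    intro N
    induction N with
    | zero => simp [A_zero]
    | succ N ih =>
      rw [sum_range_succ, ih]
      have h1 := A_succ a N
      have h2 := A_succ b N
      have h3 := A_succ c N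
      have e : ((a : ℚ) + (N + 1 : ℕ)) * (b + (N + 1 : ℕ)) * (c + (N + 1 : ℕ)) *
          (A a (N + 1) * A b (N + 1) * A c (N + 1)) =
          (((a : ℚ) - N) * A a N) * (((b : ℚ) - N) * A b N) * (((c : ℚ) - N) * A c N) := by
        rw [← h1, ← h2, ← h3]
        push_cast
        ring
      rw [e]
      ring
  have h := hG (c + 1)
  rw [A_eq_zero c (c + 1) (by omega)] at h
  unfold T V
  rw [mul_sum, mul_sum, ← sum_add_distrib, h]
  ring

lemma rel2 (a b c : ℕ) : T a b (c + 1) = ((c : ℚ) + 1) ^ 2 * (V a b (c + 1) - V a b c) := by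
  have hV : V a b c = ∑ k ∈ range (c + 1 + 1), (k : ℚ) * (A a k * A b k * A c k) := by
    rw [sum_range_succ _ (c + 1), A_eq_zero c (c + 1) (by omega)]
    unfold V
    ring
  rw [hV]
  unfold T V
  rw [← sum_sub_distrib, mul_sum]
  refine sum_congr rfl fun k _ => ?_
  have h := A_down c k
  linear_combination (-(k : ℚ) * (A a k * A b k)) * h

lemma rec_V (a b c : ℕ) : ((c : ℚ) + 1 + a) * (c + 1 + b) * V a b (c + 1) =
    ((c : ℚ) + 1) ^ 2 * V a b c + (a : ℚ) * b * (c + 1) / 2 := by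
  have h1 := rel1 a b (c + 1)
  have h2 := rel2 a b c
  push_cast at h1
  rw [h2] at h1
  linear_combination h1 / 2

lemma V_zero (a b : ℕ) : V a b 0 = 0 := by
  simp [V]

lemma choose_step (a c : ℕ) : (Nat.choose (a + (c + 1)) a : ℚ) * (c + 1) =
    ((a : ℚ) + c + 1) * Nat.choose (a + c) a := by
  have h := Nat.choose_mul_succ_eq (a + c) a
  rw [show a + c + 1 - a = c + 1 by omega] at h
  have := congrArg (Nat.cast : ℕ → ℚ) h
  push_cast at this
  rw [show a + (c + 1) = a + c + 1 by ring]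
  linarith

lemma choose_step' (a c : ℕ) (ha : 1 ≤ a) : (a : ℚ) * (Nat.choose (a + (c + 1)) a : ℚ) =
    ((a : ℚ) + c + 1) * Nat.choose (a + c) (a - 1) := by
  have h := Nat.add_one_mul_choose_eq (a + c) (a - 1)
  rw [show a - 1 + 1 = a by omega] at h
  have := congrArg (Nat.cast : ℕ → ℚ) h
  push_cast at this
  rw [show a + (c + 1) = a + c + 1 by ring]
  linarith

lemma closed (a b c : ℕ) (ha : 1 ≤ a) :
    (Nat.choose (a + c) a : ℚ) * Nat.choose (b + c) b * V a b c =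
      (b : ℚ) / 2 * ∑ j ∈ range c, (Nat.choose (b + j) b : ℚ) * Nat.choose (a + j) (a - 1) := by
  induction c with
  | zero => simp [V_zero]
  | succ c ih =>
    rw [sum_range_succ, mul_add, ← ih]
    have h := rec_V a b c
    have e1 := choose_step a c
    have e2 := choose_step b c
    have e3 := choose_step' a c ha
    have n1 : ((a : ℚ) + c + 1) ≠ 0 := by positivity
    have n2 : ((b : ℚ) + c + 1) ≠ 0 := by positivity
    have f1 : ((c : ℚ) + 1) * Nat.choose (a + (c + 1)) a / ((a : ℚ) + c + 1) =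
        Nat.choose (a + c) a := by
      rw [div_eq_iff n1]; linarith
    have f2 : ((c : ℚ) + 1) * Nat.choose (b + (c + 1)) b / ((b : ℚ) + c + 1) =
        Nat.choose (b + c) b := by
      rw [div_eq_iff n2]; linarith
    have f3 : (a : ℚ) * Nat.choose (a + (c + 1)) a / ((a : ℚ) + c + 1) =
        Nat.choose (a + c) (a - 1) := by
      rw [div_eq_iff n1]; linarith
    rw [← f1, ← f2, ← f3]
    have hV : V a b (c + 1) = (((c : ℚ) + 1) ^ 2 * V a b c + (a : ℚ) * b * (c + 1) / 2) /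
        (((a : ℚ) + c + 1) * ((b : ℚ) + c + 1)) := by
      rw [eq_div_iff (mul_ne_zero n1 n2), ← h]
      ring
    rw [hV]
    field_simp

lemma V_comm (n m : ℕ) (h : n ≤ m) : V n n m = V n m n := by
  unfold V
  rw [← sum_range_add_sum_Ico (fun k => (k : ℚ) * (A n k * A n k * A m k))
    (by omega : n + 1 ≤ m + 1)]
  have h0 : ∑ k ∈ Ico (n + 1) (m + 1), (k : ℚ) * (A n k * A n k * A m k) = 0 := by
    refine sum_eq_zero fun k hk => ?_
    rw [mem_Ico] at hk
    rw [A_eq_zero n k (by omega)]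
    ring
  rw [h0, add_zero]
  exact sum_congr rfl fun k _ => by ring

lemma B_eq (n k : ℕ) (hk : k ≤ n) : B n k = (k : ℚ) / n * (Nat.choose (2 * n) n * A n k) := by
  unfold B A
  rw [mul_div_cancel₀ _ (cb_ne n)]
  congr 2
  rw [← Nat.choose_symm (by omega : n + k ≤ 2 * n)]
  congr 1
  omega

lemma lhs_eq (n m : ℕ) (hn : 1 ≤ n) (hm : 1 ≤ m) :
    ∑ k ∈ Icc 1 (min n m), B n k ^ 2 * B m k =
      (Nat.choose (2 * n) n : ℚ) ^ 2 * Nat.choose (2 * m) m / ((n : ℚ) ^ 2 * m) * T n n m := by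
  have hn' : (n : ℚ) ≠ 0 := by positivity
  have hm' : (m : ℚ) ≠ 0 := by positivity
  have h1 : T n n m = ∑ k ∈ Icc 1 (min n m), (k : ℚ) ^ 3 * (A n k * A n k * A m k) := by
    unfold T
    symm
    apply sum_subset
    · intro k hk
      rw [mem_Icc] at hk
      rw [mem_range]
      omega
    · intro k hk hk2
      rw [mem_range] at hk
      rw [mem_Icc] at hk2
      rcases Nat.eq_zero_or_pos k with h0 | h0
      · rw [h0]; simp
      · rw [A_eq_zero n k (by omega)]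
        ring
  rw [h1, mul_sum]
  refine sum_congr rfl fun k hk => ?_
  rw [mem_Icc] at hk
  rw [B_eq n k (by omega), B_eq m k (by omega)]
  field_simp

/-- The identity of Q1 holds for all `n, m ≥ 1` (`r = min n m`, `s = max n m`). -/
theorem result (n m : ℕ) (hn : 1 ≤ n) (hm : 1 ≤ m) :
    ∑ k ∈ Icc 1 (min n m), B n k ^ 2 * B m k =
      1 / 2 * (Nat.choose (2 * n) n : ℚ) ^ 2 * (Nat.choose (2 * m) m : ℚ) *
        (1 - ((n : ℚ) + 2 * m) / ((min n m : ℕ) : ℚ) * ((Nat.choose (n + m) n : ℚ))⁻¹ *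
          ((Nat.choose (n + min n m) n : ℚ))⁻¹ *
          ∑ j ∈ range (min n m), (Nat.choose (max n m + j) (max n m) : ℚ) *
            (Nat.choose (n + j) (n - 1) : ℚ)) := by
  have hn' : (n : ℚ) ≠ 0 := by positivity
  have hm' : (m : ℚ) ≠ 0 := by positivity
  rw [lhs_eq n m hn hm]
  have hrel := rel1 n n m
  have hT : T n n m = (n : ℚ) ^ 2 * m / 2 - n * (n + 2 * m) * V n n m := by
    linear_combination hrel / 2
  rw [hT]
  have c1 : (Nat.choose (n + m) n : ℚ) ≠ 0 := by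
    have : 0 < Nat.choose (n + m) n := Nat.choose_pos (by omega)
    exact_mod_cast this.ne'
  rcases le_total m n with h | h
  · rw [min_eq_right h, max_eq_left h]
    have hc := closed n n m hn
    have hV : V n n m = (n : ℚ) / 2 * (∑ j ∈ range m, (Nat.choose (n + j) n : ℚ) *
        Nat.choose (n + j) (n - 1)) * ((Nat.choose (n + m) n : ℚ))⁻¹ *
        ((Nat.choose (n + m) n : ℚ))⁻¹ := by
      rw [← hc]
      field_simp
    rw [hV]
    field_simp
  · rw [min_eq_left h, max_eq_right h]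
    have hc := closed n m n hn
    have c2 : (Nat.choose (n + n) n : ℚ) ≠ 0 := by
      have : 0 < Nat.choose (n + n) n := Nat.choose_pos (by omega)
      exact_mod_cast this.ne'
    have e : Nat.choose (m + n) m = Nat.choose (n + m) n := by
      rw [add_comm m n]
      exact (Nat.choose_symm_add).symm
    rw [e] at hc
    have hV : V n n m = (m : ℚ) / 2 * (∑ j ∈ range n, (Nat.choose (m + j) m : ℚ) *
        Nat.choose (n + j) (n - 1)) * ((Nat.choose (n + m) n : ℚ))⁻¹ *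
        ((Nat.choose (n + n) n : ℚ))⁻¹ := by
      rw [← hc, V_comm n m h]
      field_simp
    rw [hV]
    field_simp

end Pool.Agent.Results.MP_651eca_nt.MixedCubicSum
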